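import Pool.Agent.H31.LQ

namespace Pool.Agent.Results.MP_a7ee28_al.Main

open Pool.Agent.H31.LP

theorem result : ∃ (q : ℚ) (A B C X Y Z : Matrix (Fin 2) (Fin 2) ℚ), q ≠ 0 ∧
    (∀ k : ℕ, 0 < k → q ^ k ≠ 1) ∧ IsUnit X ∧ QRel q X Y ∧ QRel q Y Z ∧ QRel q Z X ∧
    Irr3 X Y Z ∧ InSp A X Y ∧ InSp B Y Z ∧ Triple A B C ∧
    ¬InSp C Z X ∧ ∀ D, Dag A B D → ¬InSp (D C) Z X :=
  ⟨2, _, _, _, _, _, _, two_ne_zero, main2⟩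

end Pool.Agent.Results.MP_a7ee28_al.Main
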